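import Pool.Agent.TH522.US.Var
import Pool.Agent.T6.H63.SA.Walk

/-!
Global correlation of a kernel which is positive semidefinite on small tuples, for a chain with
a nonnegative spectrum and a one-step `L^p` to `L^2` inequality.
-/

namespace Pool.Agent.T6.H63.SS

open Finset Pool.Agent.H647R3.UG Pool.Agent.H573R3.SL Pool.Agent.TH522.US
open Pool.Agent.T6.H63.SA (PSDt sampling squaring exp_two)

section
variable {W : Type} [Fintype W] [DecidableEq W] {m : W → ℝ} {T : (W → ℝ) → (W → ℝ)}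

/-- transition probabilities -/
noncomputable def Pt (m : W → ℝ) (T : (W → ℝ) → (W → ℝ)) (i : ℕ) (u v : W) : ℝ :=
  m v * (T^[i] (dl m v)) u

theorem it_nonneg (h : IsOper m T) (f : W → ℝ) (hf : ∀ u, 0 ≤ f u) (i : ℕ) :
    ∀ u, 0 ≤ (T^[i] f) u := by
  induction i with
  | zero => exact hf
  | succ i ih =>
    rw [Function.iterate_succ_apply']
    exact h.nn _ ih

theorem dl_nn (h : IsOper m T) (v u : W) : 0 ≤ dl m v u := by
  unfold dl
  split_ifs
  · exact (div_pos one_pos (h.pos v)).le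
  · exact le_rfl

theorem Pt_nonneg (h : IsOper m T) (i : ℕ) (u v : W) : 0 ≤ Pt m T i u v :=
  mul_nonneg (h.pos v).le (it_nonneg h _ (dl_nn h v) i u)

theorem Pt_zero (h : IsOper m T) (u v : W) : Pt m T 0 u v = if u = v then 1 else 0 := by
  unfold Pt dl
  have h' := (h.pos v).ne'
  split_ifs with h1
  · simp only [Function.iterate_zero, id_eq, if_pos h1]
    field_simp
  · simp only [Function.iterate_zero, id_eq, if_neg h1, mul_zero]

theorem Pt_apply (h : IsOper m T) (f : W → ℝ) (i : ℕ) (u : W) :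
    (T^[i] f) u = ∑ v, Pt m T i u v * f v := by
  rw [it_kernel h f i u]
  refine sum_congr rfl fun v _ => ?_
  unfold Pt
  ring

theorem Pt_add (h : IsOper m T) (i j : ℕ) (u v : W) :
    Pt m T (i + j) u v = ∑ x, Pt m T i u x * Pt m T j x v := by
  have h1 : (T^[i + j] (dl m v)) u = ∑ x, Pt m T i u x * (T^[j] (dl m v)) x := by
    rw [Function.iterate_add_apply, Pt_apply h]
  unfold Pt at h1 ⊢
  rw [h1, mul_sum]
  exact sum_congr rfl fun x _ => by ring

theorem ip_dl (h : IsOper m T) (g : W → ℝ) (u : W) : ip m g (dl m u) = g u := by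
  unfold ip dl
  rw [sum_eq_single u]
  · rw [if_pos rfl]
    have := (h.pos u).ne'
    field_simp
  · intro b _ hb; rw [if_neg hb, mul_zero]
  · intro h; exact absurd (mem_univ _) h

theorem Pt_rev (h : IsOper m T) (i : ℕ) (u v : W) :
    m u * Pt m T i u v = m v * Pt m T i v u := by
  have h1 := move h (dl m v) (dl m u) i
  rw [ip_dl h, OPX.ip_comm, ip_dl h] at h1
  unfold Pt
  rw [h1]
  ring

theorem it_tot (h : IsOper m T) (f : W → ℝ) (i : ℕ) :
    ∑ u, m u * (T^[i] f) u = ∑ u, m u * f u := by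
  induction i with
  | zero => rfl
  | succ i ih => rw [Function.iterate_succ_apply', h.tot, ih]

theorem Pt_sum (h : IsOper m T) (i : ℕ) (u : W) : ∑ v, Pt m T i u v = 1 := by
  have hu := h.pos u
  have h1 : m u * ∑ v, Pt m T i u v = m u * 1 := by
    rw [mul_sum]
    have h2 : ∀ v, m u * Pt m T i u v = m u * (m v * (T^[i] (dl m u)) v) := by
      intro v
      rw [Pt_rev h]
      unfold Pt
      ring
    rw [sum_congr rfl fun v _ => h2 v, ← mul_sum, it_tot h]
    congr 1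
    unfold dl
    rw [sum_eq_single u]
    · rw [if_pos rfl, mul_one_div, div_self hu.ne']
    · intro b _ hb; rw [if_neg hb, mul_zero]
    · intro h; exact absurd (mem_univ _) h
  exact mul_left_cancel₀ hu.ne' h1

/-- correlation after `i` steps -/
noncomputable def Ft (m : W → ℝ) (T : (W → ℝ) → (W → ℝ)) (K : W → W → ℝ) (i : ℕ) : ℝ :=
  ∑ u, m u * ∑ v, Pt m T i u v * K u v

theorem Ft_zero (h : IsOper m T) (K : W → W → ℝ) : Ft m T K 0 = ∑ u, m u * K u u := by
  unfold Ft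
  refine sum_congr rfl fun u _ => ?_
  congr 1
  rw [sum_eq_single u]
  · rw [Pt_zero h]; simp
  · intro b _ hb; rw [Pt_zero h, if_neg hb.symm, zero_mul]
  · intro h; exact absurd (mem_univ _) h

/-- the doubling inequality -/
theorem doubling' (h : IsOper m T) (K : W → W → ℝ) (t : ℕ) (ht : 1 ≤ t)
    (hK : PSDt K (t + 1)) (hsym : ∀ u v, K u v = K v u) (hK1 : ∀ u v, K u v ≤ 1)
    (hK0 : ∀ u v, 0 ≤ K u v) (i : ℕ) (a : ℝ) :
    2 * a * Ft m T K i - a ^ 2 * Ft m T K 0 - (∑ u, m u) / t ≤ Ft m T K (i + i) := by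
  have ht0 : (0 : ℝ) < t := by exact_mod_cast ht
  -- per vertex
  have hper : ∀ u, 2 * a * (∑ v, Pt m T i u v * K u v) - a ^ 2 * K u u - 1 / t ≤
      ∑ v, ∑ v', Pt m T i u v * Pt m T i u v' * K v v' := by
    intro u
    have h1 := sampling K t ht hK hsym hK1 hK0 (Pt m T i u) (Pt_nonneg h i u) u (-a)
    rw [Pt_sum h] at h1
    linarith
  -- the sum
  have hd : Ft m T K (i + i) = ∑ u, m u * ∑ v, ∑ v', Pt m T i u v * Pt m T i u v' * K v v' := by
    unfold Ft
    have h1 : ∀ v, m v * ∑ v', Pt m T (i + i) v v' * K v v' =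
        ∑ u, ∑ v', m u * (Pt m T i u v * Pt m T i u v' * K v v') := by
      intro v
      have h2 : ∀ v', Pt m T (i + i) v v' * K v v' =
          ∑ u, Pt m T i v u * Pt m T i u v' * K v v' := by
        intro v'
        rw [Pt_add h, sum_mul]
      simp only [h2]
      rw [sum_comm, mul_sum]
      refine sum_congr rfl fun u _ => ?_
      rw [mul_sum]
      refine sum_congr rfl fun v' _ => ?_
      have h3 := Pt_rev h i v u
      calc m v * (Pt m T i v u * Pt m T i u v' * K v v') =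
          (m v * Pt m T i v u) * (Pt m T i u v' * K v v') := by ring
        _ = (m u * Pt m T i u v) * (Pt m T i u v' * K v v') := by rw [h3]
        _ = _ := by ring
    simp only [h1]
    rw [sum_comm]
    refine sum_congr rfl fun u _ => ?_
    simp only [mul_sum]
  rw [hd, Ft_zero h]
  have h4 : 2 * a * Ft m T K i - a ^ 2 * ∑ u, m u * K u u - (∑ u, m u) / t =
      ∑ u, m u * (2 * a * (∑ v, Pt m T i u v * K u v) - a ^ 2 * K u u - 1 / t) := by
    unfold Ft
    rw [mul_sum, mul_sum, sum_div, ← sum_sub_distrib, ← sum_sub_distrib]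
    exact sum_congr rfl fun u _ => by ring
  rw [h4]
  exact sum_le_sum fun u _ => mul_le_mul_of_nonneg_left (hper u) (h.pos u).le

/-- number of steps -/
theorem numbers3 (κ q : ℝ) (hκ : 0 < κ) (hκ1 : κ < 1) (hq : 0 < q) (hq1 : q ≤ 1) :
    ∃ S : ℕ, (1 - κ) ^ (2 ^ S) ≤ q ∧ (2 : ℝ) ^ S ≤ 2 * (Real.log (1 / q) / κ + 1) := by
  have hL : 0 ≤ Real.log (1 / q) := Real.log_nonneg (by rw [le_div_iff₀ hq]; linarith)
  set X : ℝ := Real.log (1 / q) / κ with hX
  have hX0 : 0 ≤ X := by positivity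
  obtain ⟨n, hn1, hn2⟩ := exists_nat_pow_near (by linarith : (1 : ℝ) ≤ X + 1)
    (by norm_num : (1 : ℝ) < 2)
  refine ⟨n + 1, ?_, ?_⟩
  · have a1 : 1 - κ ≤ Real.exp (-κ) := by
      have := Real.add_one_le_exp (-κ)
      linarith
    have hT : X ≤ ((2 ^ (n + 1) : ℕ) : ℝ) := by
      push_cast
      linarith
    calc (1 - κ) ^ (2 ^ (n + 1)) ≤ Real.exp (-κ) ^ (2 ^ (n + 1)) :=
          pow_le_pow_left₀ (by linarith) a1 _
      _ = Real.exp (((2 ^ (n + 1) : ℕ) : ℝ) * -κ) := by rw [← Real.exp_nat_mul]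
      _ ≤ Real.exp (-Real.log (1 / q)) := by
          apply Real.exp_le_exp.2
          have a2 : Real.log (1 / q) = X * κ := by
            rw [hX]
            field_simp
          have a3 : X * κ ≤ ((2 ^ (n + 1) : ℕ) : ℝ) * κ :=
            mul_le_mul_of_nonneg_right hT hκ.le
          linarith
      _ = q := by
          rw [← Real.log_inv, one_div, inv_inv, Real.exp_log hq]
  · rw [pow_succ]
    linarith

/-- the loss factor -/
noncomputable def rhoS (κ τ q : ℝ) : ℝ := Real.exp (-(6 * τ * (Real.log (1 / q) / κ + 1)))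

/-- global correlation, positive masses -/
theorem gcxK (h : IsOper m T) (K : W → W → ℝ) (t : ℕ) (ht : 1 ≤ t)
    (hK : PSDt K (t + 1)) (hKs : ∀ u v, K u v = K v u) (hK1 : ∀ u v, K u v ≤ 1)
    (hK0 : ∀ u v, 0 ≤ K u v) (κ τ q : ℝ) (hκ : 0 < κ) (hκ1 : κ < 1)
    (hτ : 0 < τ) (hτ1 : τ ≤ 1 / 2) (hq : 0 < q) (hq1 : q ≤ 1)
    (hH : ∀ g : W → ℝ, (∀ u, 0 ≤ g u) → ip m g (T g) ≤
      (vol m univ) ^ (-κ) * (∑ u, m u * g u ^ (2 / (1 + κ))) ^ (1 + κ))
    (hW : Nonempty W)
    (ha : 0 < ∑ u, m u * K u u)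
    (hen : (1 - τ) * ∑ u, m u * K u u ≤ Ft m T K 1)
    (htM : 2 * ∑ u, m u ≤ t * (∑ u, m u * K u u) * rhoS κ τ q ^ 2 * τ) :
    (∑ u, m u * K u u) ^ 2 * (rhoS κ τ q ^ 2 * (Fintype.card W : ℝ) ^ (-q))
      ≤ ∑ u, ∑ v, m u * m v * (K u v) ^ 2 := by
  have ht0 : (0 : ℝ) < t := by exact_mod_cast ht
  set a : ℝ := ∑ u, m u * K u u with had
  obtain ⟨S, hn1, hn2⟩ := numbers3 κ q hκ hκ1 hq hq1
  set δ : ℝ := (1 - κ) ^ (2 ^ S) with hδ
  have hδ0 : 0 ≤ δ := pow_nonneg (by linarith) _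
  have hδ1 : δ ≤ 1 := hn1.trans hq1
  have hM : 0 < vol m univ := sum_pos (fun u _ => h.pos u) univ_nonempty
  set ρ : ℝ := rhoS κ τ q with hρd
  have hρ0 : 0 < ρ := Real.exp_pos _
  have hFc0 : Ft m T K 0 = a := Ft_zero h K
  have hρS : ρ ≤ Real.exp (-(2 ^ S * (2 * τ + τ))) := by
    rw [hρd]
    unfold rhoS
    apply Real.exp_le_exp.2
    have := mul_le_mul_of_nonneg_right hn2 (by positivity : (0 : ℝ) ≤ 3 * τ)
    linarith
  have hmain : ρ * a ≤ Ft m T K (2 ^ S) := by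
    have hMp : 0 < ∑ u, m u := hM
    set y : ℕ → ℝ := fun _ => (∑ u, m u) / t / (a * ρ ^ 2) with hy
    have hy0 : 0 ≤ (∑ u, m u) / t / (a * ρ ^ 2) := by positivity
    have hy1 : (∑ u, m u) / t / (a * ρ ^ 2) ≤ τ / 2 := by
      rw [div_div, div_le_iff₀ (by positivity)]
      linarith
    have hsq := squaring (fun j => Ft m T K (2 ^ j) / a) y (2 * τ) τ ρ S
      (by
        show _ ≤ Ft m T K (2 ^ 0) / a
        rw [pow_zero, le_div_iff₀ ha]
        have h3 := exp_two τ hτ.le hτ1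
        have h5 := mul_le_mul_of_nonneg_right h3 ha.le
        linarith)
      (by
        intro j hj
        have h2 := doubling' h K t ht hK hKs hK1 hK0 (2 ^ j) (Ft m T K (2 ^ j) / a)
        rw [hFc0] at h2
        show (Ft m T K (2 ^ j) / a) ^ 2 - y j * ρ ^ 2 ≤ Ft m T K (2 ^ (j + 1)) / a
        rw [le_div_iff₀ ha]
        have e1 : 2 ^ (j + 1) = 2 ^ j + 2 ^ j := by rw [pow_succ]; ring
        rw [e1]
        refine le_trans (le_of_eq ?_) h2
        simp only [hy]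
        field_simp
        ring)
      (fun _ => hy0)
      (fun _ => by simp only [hy]; linarith)
      (by
        have h2 : ∑ j ∈ range S, (1 / 2 : ℝ) ^ j * y j ≤ ∑ j ∈ range S, (1 / 2 : ℝ) ^ j * (τ / 2) :=
          sum_le_sum fun j _ => mul_le_mul_of_nonneg_left hy1 (by positivity)
        refine h2.trans ?_
        rw [← sum_mul]
        have h3 : ∑ j ∈ range S, (1 / 2 : ℝ) ^ j ≤ 2 := by
          have h4 := geom_sum_eq (by norm_num : (1 / 2 : ℝ) ≠ 1) S
          rw [h4]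
          have h5 : 0 < (1 / 2 : ℝ) ^ S := by positivity
          have h6 : ((1 / 2 : ℝ) ^ S - 1) / (1 / 2 - 1) = 2 - 2 * (1 / 2 : ℝ) ^ S := by ring
          rw [h6]
          linarith
        have := mul_le_mul_of_nonneg_right h3 (by positivity : (0 : ℝ) ≤ τ / 2)
        linarith)
      hρ0.le (by positivity) hρS
    have h9 : ρ ≤ Ft m T K (2 ^ S) / a := hρS.trans hsq
    rwa [le_div_iff₀ ha] at h9
  set H : W → W → ℝ := fun u v => (T^[2 ^ S] (dl m v)) u with hH'
  have l1 : ρ * a ≤ ∑ u, ∑ v, m u * m v * H u v * K u v := by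
    refine hmain.trans (le_of_eq ?_)
    unfold Ft Pt
    refine sum_congr rfl fun u _ => ?_
    rw [mul_sum]
    refine sum_congr rfl fun v _ => ?_
    simp only [hH']
    ring
  have hc0 : 0 ≤ ρ * a := by positivity
  have l2 : (∑ u, ∑ v, m u * m v * H u v * K u v) ^ 2 ≤
      (∑ u, ∑ v, m u * m v * H u v ^ 2) * ∑ u, ∑ v, m u * m v * K u v ^ 2 := by
    have h1 := Finset.sum_sq_le_sum_mul_sum_of_sq_le_mul ((univ : Finset W) ×ˢ (univ : Finset W))
      (r := fun p => m p.1 * m p.2 * H p.1 p.2 * K p.1 p.2)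
      (f := fun p => m p.1 * m p.2 * H p.1 p.2 ^ 2) (g := fun p => m p.1 * m p.2 * K p.1 p.2 ^ 2)
      (fun p _ => mul_nonneg (mul_nonneg (h.pos _).le (h.pos _).le) (sq_nonneg _))
      (fun p _ => mul_nonneg (mul_nonneg (h.pos _).le (h.pos _).le) (sq_nonneg _))
      (fun p _ => le_of_eq (by ring))
    rwa [sum_product, sum_product, sum_product] at h1
  have hn : (1 : ℝ) ≤ (Fintype.card W : ℝ) := by
    exact_mod_cast Fintype.card_pos
  have l3 : ∑ u, ∑ v, m u * m v * H u v ^ 2 ≤ (Fintype.card W : ℝ) ^ q := by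
    rw [sum_comm]
    have h1 : ∀ v ∈ (univ : Finset W), ∑ u, m u * m v * H u v ^ 2 ≤
        m v * (1 / vol m univ * (vol m univ / m v) ^ δ) := by
      intro v _
      have e : ∑ u, m u * m v * H u v ^ 2 = m v * ip m (T^[2 ^ S] (dl m v))
          (T^[2 ^ S] (dl m v)) := by
        unfold ip
        rw [mul_sum]
        apply sum_congr rfl
        intro u _
        simp only [hH']
        ring
      rw [e]
      have h2 := decay h κ hκ hκ1 hH v (2 ^ S)
      exact mul_le_mul_of_nonneg_left (by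
        rw [hδ]
        exact h2) (h.pos v).le
    refine (sum_le_sum h1).trans ?_
    have h2 := T_SQ W m δ h.pos hδ0 hδ1
    have h3 : ∑ v, m v * (1 / vol m univ * (vol m univ / m v) ^ δ) =
        (∑ v, m v * (4 / vol m univ * (vol m univ / m v) ^ δ)) / 4 := by
      rw [sum_div]
      refine sum_congr rfl fun v _ => ?_
      ring
    rw [h3]
    have h4 : (Fintype.card W : ℝ) ^ δ ≤ (Fintype.card W : ℝ) ^ q :=
      Real.rpow_le_rpow_of_exponent_le hn hn1
    linarith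
  set Q : ℝ := ∑ u, ∑ v, m u * m v * K u v ^ 2 with hQ
  have hQ0 : 0 ≤ Q := sum_nonneg fun u _ => sum_nonneg fun v _ =>
    mul_nonneg (mul_nonneg (h.pos _).le (h.pos _).le) (sq_nonneg _)
  have l4 : (ρ * a) ^ 2 ≤ (Fintype.card W : ℝ) ^ q * Q :=
    (pow_le_pow_left₀ hc0 l1 2).trans (l2.trans (mul_le_mul_of_nonneg_right l3 hQ0))
  have hp : 0 < (Fintype.card W : ℝ) ^ q := Real.rpow_pos_of_pos (by linarith) _
  have hpn : (Fintype.card W : ℝ) ^ (-q) * (Fintype.card W : ℝ) ^ q = 1 := by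
    rw [← Real.rpow_add (by linarith), neg_add_cancel, Real.rpow_zero]
  refine le_of_mul_le_mul_right ?_ hp
  calc a ^ 2 * (ρ ^ 2 * (Fintype.card W : ℝ) ^ (-q)) * (Fintype.card W : ℝ) ^ q
      = (ρ * a) ^ 2 * ((Fintype.card W : ℝ) ^ (-q) * (Fintype.card W : ℝ) ^ q) := by ring
    _ = (ρ * a) ^ 2 := by rw [hpn, mul_one]
    _ ≤ (Fintype.card W : ℝ) ^ q * Q := l4
    _ = Q * (Fintype.card W : ℝ) ^ q := by ring

end

theorem Pt_one {W : Type} [Fintype W] [DecidableEq W] {m : W → ℝ} (w : W → W → ℝ)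
    (hm : ∀ u, 0 < m u) (u v : W) : m u * Pt m (ch w m) 1 u v = w u v := by
  unfold Pt
  rw [Function.iterate_one]
  unfold ch dl
  rw [sum_eq_single v]
  · rw [if_pos rfl]
    have h1 := (hm u).ne'
    have h2 := (hm v).ne'
    field_simp
  · intro b _ hb; rw [if_neg hb, mul_zero]
  · intro h; exact absurd (mem_univ _) h

open Classical in
/-- global correlation, zero masses allowed -/
theorem gcx0K {V : Type} [Fintype V] (w : V → V → ℝ) (hw : IsKer w) (m : V → ℝ)
    (hd : ∀ u, ∑ v, w u v = m u) (κ τ q : ℝ) (n : ℕ) (hκ : 0 < κ) (hκ1 : κ < 1)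
    (hτ : 0 < τ) (hτ1 : τ ≤ 1 / 2) (hq : 0 < q) (hq1 : q ≤ 1)
    (hn : (univ.filter fun v => 0 < m v).card ≤ n)
    (hH : ∀ g : V → ℝ, (∀ u, 0 ≤ g u) → bil w g g ≤
      (∑ u, m u) ^ (-κ) * (∑ u, m u * g u ^ (2 / (1 + κ))) ^ (1 + κ))
    (K : V → V → ℝ) (t : ℕ) (ht : 1 ≤ t)
    (hK : PSDt K (t + 1)) (hKs : ∀ u v, K u v = K v u) (hK1 : ∀ u v, K u v ≤ 1)
    (hK0 : ∀ u v, 0 ≤ K u v) (hpos : 0 < ∑ u, m u * K u u)
    (hen : 1 / 2 * ∑ u, ∑ v, w u v * (K u u + K v v - 2 * K u v) ≤ τ * ∑ u, m u * K u u)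
    (htM : 2 * ∑ u, m u ≤ t * (∑ u, m u * K u u) * rhoS κ τ q ^ 2 * τ) :
    (∑ u, m u * K u u) ^ 2 * (rhoS κ τ q ^ 2 * (n : ℝ) ^ (-q))
      ≤ ∑ u, ∑ v, m u * m v * (K u v) ^ 2 := by
  have hm : ∀ u, 0 ≤ m u := fun u => by rw [← hd]; exact sum_nonneg fun v _ => hw.nonneg u v
  have h0 : ∀ u, m u = 0 → ∀ v, w u v = 0 := fun u hu v => by
    rw [← hd] at hu
    exact (sum_eq_zero_iff_of_nonneg fun v _ => hw.nonneg u v).1 hu v (mem_univ v)
  have h0' : ∀ u v, m v = 0 → w u v = 0 := fun u v hv => by rw [hw.symm, h0 v hv]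
  set W := {v // 0 < m v} with hWd
  set w' : W → W → ℝ := fun u v => w u.1 v.1 with hw'
  set m' : W → ℝ := fun u => m u.1 with hm'
  have ext0 : ∀ (g : W → ℝ), ∃ e : V → ℝ, (∀ u : W, e u.1 = g u) ∧
      ((∀ u, 0 ≤ g u) → ∀ v, 0 ≤ e v) := by
    intro g
    refine ⟨fun v => if hv : 0 < m v then g ⟨v, hv⟩ else 0, fun u => ?_, fun hg v => ?_⟩
    · simp only [dif_pos u.2]
      rfl
    · simp only
      split_ifs
      · exact hg _
      · exact le_rfl
  have hbil : ∀ (f g : V → ℝ), bil w f g = bil w' (fun u => f u.1) (fun u => g u.1) := by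
    intro f g
    unfold bil
    exact GCFL.red2 m hm (fun u v => w u v * (f u * g v)) (fun u v hu => by simp [h0 u hu v])
      (fun u v hv => by simp [h0' u v hv])
  have hKer : IsKer w' := by
    refine ⟨fun u v => hw.nonneg _ _, fun u v => hw.symm _ _, fun f => ?_⟩
    obtain ⟨e, he, -⟩ := ext0 f
    have h1 := hw.psd e
    rw [hbil] at h1
    simp only [he] at h1
    exact h1
  have hdW : ∀ u : W, ∑ v, w' u v = m' u := by
    intro u
    have h1 := GCFL.red m hm (fun v => w u.1 v) (fun v hv => h0' _ _ hv)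
    rw [hd] at h1
    exact h1.symm
  have hop := isOper hKer m' (fun u => u.2) hdW
  have e1 : ∑ u, m u * K u u = ∑ u : W, m' u * K u.1 u.1 :=
    GCFL.red m hm (fun u => m u * K u u) (fun v hv => by simp [hv])
  have e0 : ∑ u, m u = ∑ u : W, m' u := GCFL.red m hm (fun v => m v) (fun v hv => hv)
  have e2 : ∑ u, ∑ v, w u v * (K u u + K v v - 2 * K u v) =
      ∑ u : W, ∑ v : W, w' u v * (K u.1 u.1 + K v.1 v.1 - 2 * K u.1 v.1) :=
    GCFL.red2 m hm (fun u v => w u v * (K u u + K v v - 2 * K u v))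
      (fun u v hu => by simp [h0 u hu v]) (fun u v hv => by simp [h0' u v hv])
  have e3 : ∑ u, ∑ v, m u * m v * (K u v) ^ 2 =
      ∑ u : W, ∑ v : W, m' u * m' v * (K u.1 v.1) ^ 2 :=
    GCFL.red2 m hm (fun u v => m u * m v * (K u v) ^ 2) (fun u v hu => by simp [hu])
      (fun u v hv => by simp [hv])
  have hvol : vol m' univ = ∑ u, m u := e0.symm
  have hne : Nonempty W := by
    by_contra hemp
    rw [not_nonempty_iff] at hemp
    rw [e1, Fintype.sum_empty] at hpos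
    exact lt_irrefl _ hpos
  have hH' : ∀ g : W → ℝ, (∀ u, 0 ≤ g u) → ip m' g (ch w' m' g) ≤
      (vol m' univ) ^ (-κ) * (∑ u, m' u * g u ^ (2 / (1 + κ))) ^ (1 + κ) := by
    intro g hg
    obtain ⟨e, he, he0⟩ := ext0 g
    have h1 := hH e (he0 hg)
    rw [hbil, GCFL.red m hm (fun u => m u * e u ^ (2 / (1 + κ))) (fun v hv => by simp [hv])] at h1
    simp only [he] at h1
    rw [ip_ch m' (fun u => u.2), hvol]
    exact h1
  have hF1 : Ft m' (ch w' m') (fun u v => K u.1 v.1) 1 = ∑ u : W, ∑ v : W, w' u v * K u.1 v.1 := by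
    unfold Ft
    refine sum_congr rfl fun u _ => ?_
    rw [mul_sum]
    refine sum_congr rfl fun v _ => ?_
    rw [← mul_assoc, Pt_one w' (fun u => u.2)]
  have hF2 : ∑ u : W, ∑ v : W, w' u v * (K u.1 u.1 + K v.1 v.1 - 2 * K u.1 v.1) =
      2 * ∑ u : W, m' u * K u.1 u.1 - 2 * ∑ u : W, ∑ v : W, w' u v * K u.1 v.1 := by
    have g1 : ∑ u : W, ∑ v : W, w' u v * K u.1 u.1 = ∑ u : W, m' u * K u.1 u.1 := by
      refine sum_congr rfl fun u _ => ?_
      rw [← sum_mul, hdW]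
    have g2 : ∑ u : W, ∑ v : W, w' u v * K v.1 v.1 = ∑ u : W, m' u * K u.1 u.1 := by
      rw [← g1, sum_comm]
      refine sum_congr rfl fun u _ => sum_congr rfl fun v _ => ?_
      rw [hKer.symm]
    have g3 : 2 * ∑ u : W, m' u * K u.1 u.1 = ∑ u : W, ∑ v : W, w' u v * K u.1 u.1 +
        ∑ u : W, ∑ v : W, w' u v * K v.1 v.1 := by rw [g1, g2]; ring
    rw [g3, mul_sum, ← sum_add_distrib, ← sum_sub_distrib]
    refine sum_congr rfl fun u _ => ?_
    rw [mul_sum, ← sum_add_distrib, ← sum_sub_distrib]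
    refine sum_congr rfl fun v _ => ?_
    ring
  rw [e1] at hpos hen htM ⊢
  rw [e0] at htM
  rw [e2, hF2] at hen
  rw [e3]
  have h := gcxK hop (fun u v : W => K u.1 v.1) t ht (fun x c => hK (fun i => (x i).1) c)
    (fun _ _ => hKs _ _) (fun _ _ => hK1 _ _) (fun _ _ => hK0 _ _) κ τ q hκ hκ1 hτ hτ1 hq hq1 hH'
    hne hpos (by rw [hF1]; linarith) htM
  refine le_trans ?_ h
  refine mul_le_mul_of_nonneg_left ?_ (sq_nonneg _)
  refine mul_le_mul_of_nonneg_left ?_ (sq_nonneg _)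
  have hc : Fintype.card W ≤ n := by
    have h9 : Fintype.card W = (univ.filter fun v => 0 < m v).card :=
      Fintype.card_subtype (fun v => 0 < m v)
    rw [h9]
    exact hn
  have hc1 : 1 ≤ Fintype.card W := Fintype.card_pos
  refine Real.rpow_le_rpow_of_nonpos ?_ ?_ (by linarith)
  · exact_mod_cast hc1
  · exact_mod_cast hc

end Pool.Agent.T6.H63.SS
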