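import Pool.Agent.T6.H63.SS.Round
import Pool.Agent.T6.H63.SA.Hier

/-!
Greedy union of the rounded soft parts, labeling of the targets, and the final bound.
-/

namespace Pool.Agent.T6.H63.SS

open Finset Pool.Agent.H647R3.UG Pool.Agent.H573R3.SL Pool.Agent.TH522.US
open Pool.Agent.TH522.UG (Dep)
open Pool.Agent.TH522.UG.Mx (dep_sat)
open Pool.Agent.T6.H63.SA (PSDt Fct Hier SAl)

/-- composition of two constraints, for Sherali-Adams solutions -/
theorem tri_sa {V A : Type} [Fintype V] [DecidableEq V] [Fintype A] [DecidableEq A] {k : ℕ}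
    (hk : 3 ≤ k) {L : ((V → A) → ℝ) →ₗ[ℝ] ℝ} (hL : SAl k L) : Tri L := by
  intro u u' v π π'
  have h1 := hL.junta {u, u', v} (card_le_three.trans hk)
    (fun x => sat u u' (π.trans π'.symm) x + 1 - sat u v π x - sat u' v π' x)
    (by
      intro x y h
      have d1 := dep_sat u u' (π.trans π'.symm) {u, u', v} (by simp) (by simp) x y h
      have d2 := dep_sat u v π {u, u', v} (by simp) (by simp) x y h
      have d3 := dep_sat u' v π' {u, u', v} (by simp) (by simp) x y h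
      simp only [d1, d2, d3])
    (by
      intro x
      unfold sat
      simp only [Equiv.trans_apply]
      by_cases h1 : π (x u) = x v
      · by_cases h2 : π' (x u') = x v
        · have h3 : π'.symm (π (x u)) = x u' := by
            rw [h1, ← h2, Equiv.symm_apply_apply]
          rw [if_pos h1, if_pos h2, if_pos h3]
          norm_num
        · rw [if_pos h1, if_neg h2]
          split_ifs <;> norm_num
      · rw [if_neg h1]
        split_ifs <;> norm_num)
  have h2 : (fun x : V → A => sat u u' (π.trans π'.symm) x + 1 - sat u v π x - sat u' v π' x) =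
      sat u u' (π.trans π'.symm) + (fun _ => (1 : ℝ)) - sat u v π - sat u' v π' := rfl
  rw [h2, map_sub, map_sub, map_add, hL.one] at h1
  linarith

section
variable {V E A : Type} [Fintype V] [DecidableEq V] [Fintype E] [Fintype A] [DecidableEq A]

/-- pairs of edges with a common target which are consistent for the labels of the sources -/
noncomputable def agr (s : E → V) (π : E → Equiv.Perm A) (U : Finset V) (x : V → A) (e e' : E) :
    ℝ :=
  if (s e ∈ U ∧ s e' ∈ U) ∧ π e (x (s e)) = π e' (x (s e')) then 1 else 0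

theorem bil_ge (s t : E → V) (ω : E → ℝ) (hω : ∀ e, 0 ≤ ω e) (U : Finset V) :
    2 * (∑ u ∈ U, ds s ω u) - ∑ e, ω e ≤ bil (K2 s t ω) (fun v => if v ∈ U then 1 else 0)
      (fun v => if v ∈ U then 1 else 0) := by
  have h0 : ∑ u ∈ U, ds s ω u = ∑ e, ω e * (if s e ∈ U then 1 else 0) := by
    have h1 := ds_sum s ω fun u => if u ∈ U then (1 : ℝ) else 0
    rw [← h1]
    have h2 : ∀ u, ds s ω u * (if u ∈ U then (1 : ℝ) else 0) = if u ∈ U then ds s ω u else 0 := by
      intro u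
      split_ifs <;> simp
    rw [sum_congr rfl fun u _ => h2 u, sum_ite_mem, univ_inter]
  rw [bil_K2]
  have h1 : PS t ω (fun e e' => (if s e ∈ U then (1 : ℝ) else 0) +
      ((if s e' ∈ U then (1 : ℝ) else 0) + (-1) * 1)) ≤
      PS t ω fun e e' => (if s e ∈ U then (1 : ℝ) else 0) * (if s e' ∈ U then 1 else 0) := by
    refine PS_mono t ω hω _ _ fun e e' _ => ?_
    split_ifs <;> norm_num
  refine le_trans (le_of_eq ?_) h1
  rw [PS_add, PS_add, PS_smul, PS_left t ω hω fun e => if s e ∈ U then (1 : ℝ) else 0,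
    PS_comm t ω fun e _ => if s e ∈ U then (1 : ℝ) else 0,
    PS_left t ω hω fun e => if s e ∈ U then (1 : ℝ) else 0, PS_left t ω hω fun _ => (1 : ℝ), h0]
  simp only [mul_one]
  ring

/-- greedy union -/
theorem greedy (s t : E → V) (π : E → Equiv.Perm A) (ω : E → ℝ)
    (hω : ∀ e, 0 ≤ ω e) (β : ℝ) (hβ : 0 ≤ β) (x0 : V → A) : ∀ (N : ℕ) (U0 : Finset V),
    U0.card ≤ N →
    (∀ U ⊆ U0, (∑ e, ω e) / 2 ≤ bil (K2 s t ω) (fun v => if v ∈ U then 1 else 0)
      (fun v => if v ∈ U then 1 else 0) →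
      ∃ (x : V → A) (S : Finset V), S.Nonempty ∧ S ⊆ U ∧
      β * ∑ u ∈ S, ds s ω u ≤ PS t ω (agr s π S x)) →
    ∃ x : V → A, β * (∑ u ∈ U0, ds s ω u - 3 / 4 * ∑ e, ω e) ≤ PS t ω (agr s π U0 x) := by
  intro N
  induction N with
  | zero =>
    intro U0 hU0 _
    have h1 : U0 = ∅ := card_eq_zero.1 (by omega)
    refine ⟨x0, ?_⟩
    have h2 : 0 ≤ PS t ω (agr s π U0 x0) := PS_nonneg t ω hω _ fun e e' => by
      unfold agr; split_ifs <;> norm_num
    refine le_trans ?_ h2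
    rw [h1, sum_empty]
    have h3 : 0 ≤ ∑ e, ω e := sum_nonneg fun e _ => hω e
    exact mul_nonpos_of_nonneg_of_nonpos hβ (by linarith)
  | succ N ih =>
    intro U0 hU0 hstep
    rcases lt_or_ge (bil (K2 s t ω) (fun v => if v ∈ U0 then 1 else 0)
      (fun v => if v ∈ U0 then 1 else 0)) ((∑ e, ω e) / 2) with hlt | hge
    · refine ⟨x0, ?_⟩
      have h2 : 0 ≤ PS t ω (agr s π U0 x0) := PS_nonneg t ω hω _ fun e e' => by
        unfold agr; split_ifs <;> norm_num
      refine le_trans ?_ h2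
      have h3 := bil_ge s t ω hω U0
      exact mul_nonpos_of_nonneg_of_nonpos hβ (by linarith)
    · obtain ⟨x1, S, hS, hSU, hx1⟩ := hstep U0 (Subset.refl _) hge
      have hcard : (U0 \ S).card ≤ N := by
        have h1 := card_sdiff_of_subset hSU
        have h2 := card_pos.2 hS
        omega
      obtain ⟨x2, hx2⟩ := ih (U0 \ S) hcard fun U hU => hstep U (hU.trans sdiff_subset)
      refine ⟨fun v => if v ∈ S then x1 v else x2 v, ?_⟩
      have hsplit : ∑ u ∈ U0, ds s ω u = ∑ u ∈ S, ds s ω u + ∑ u ∈ U0 \ S, ds s ω u := by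
        rw [add_comm, sum_sdiff hSU]
      have hagr : PS t ω (agr s π S x1) + PS t ω (agr s π (U0 \ S) x2) ≤
          PS t ω (agr s π U0 fun v => if v ∈ S then x1 v else x2 v) := by
        rw [← PS_add]
        refine PS_mono t ω hω _ _ fun e e' _ => ?_
        unfold agr
        by_cases h1 : s e ∈ S
        · by_cases h2 : s e' ∈ S
          · have h3 : ¬ (s e ∈ U0 \ S ∧ s e' ∈ U0 \ S) := fun h => (mem_sdiff.1 h.1).2 h1
            have h4 : s e ∈ U0 ∧ s e' ∈ U0 := ⟨hSU h1, hSU h2⟩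
            simp only [h1, h2, h3, h4, if_true, false_and, if_false, add_zero, and_self, true_and]
            exact le_rfl
          · have h3 : ¬ (s e ∈ U0 \ S ∧ s e' ∈ U0 \ S) := fun h => (mem_sdiff.1 h.1).2 h1
            have h5 : ¬ (s e ∈ S ∧ s e' ∈ S) := fun h => h2 h.2
            simp only [h3, h5, false_and, if_false, add_zero]
            split_ifs <;> norm_num
        · by_cases h2 : s e' ∈ S
          · have h3 : ¬ (s e ∈ U0 \ S ∧ s e' ∈ U0 \ S) := fun h => (mem_sdiff.1 h.2).2 h2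
            have h5 : ¬ (s e ∈ S ∧ s e' ∈ S) := fun h => h1 h.1
            simp only [h3, h5, false_and, if_false, add_zero]
            split_ifs <;> norm_num
          · have h5 : ¬ (s e ∈ S ∧ s e' ∈ S) := fun h => h1 h.1
            simp only [h5, false_and, if_false, zero_add]
            by_cases h6 : (s e ∈ U0 \ S ∧ s e' ∈ U0 \ S) ∧ π e (x2 (s e)) = π e' (x2 (s e'))
            · have h7 : (s e ∈ U0 ∧ s e' ∈ U0) ∧
                  π e (if s e ∈ S then x1 (s e) else x2 (s e)) =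
                    π e' (if s e' ∈ S then x1 (s e') else x2 (s e')) := by
                refine ⟨⟨(mem_sdiff.1 h6.1.1).1, (mem_sdiff.1 h6.1.2).1⟩, ?_⟩
                rw [if_neg h1, if_neg h2]
                exact h6.2
              rw [if_pos h6, if_pos h7]
            · rw [if_neg h6]
              split_ifs <;> norm_num
      rw [hsplit]
      linarith

/-- the best labels of the targets -/
theorem targets (s t : E → V) (π : E → Equiv.Perm A) (ω : E → ℝ) (hω : ∀ e, 0 ≤ ω e)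
    (x : V → A) (a0 : A) :
    ∃ y : V → A, PS t ω (agr s π univ x) ≤
      ∑ e, ω e * (if π e (x (s e)) = y (t e) then 1 else 0) := by
  set c : V → A → ℝ := fun v b => ∑ e, if t e = v then ω e * (if π e (x (s e)) = b then 1 else 0)
    else 0 with hc
  have hc0 : ∀ v b, 0 ≤ c v b := fun v b => sum_nonneg fun e _ => by
    split_ifs
    · exact mul_nonneg (hω e) (by norm_num)
    · exact mul_nonneg (hω e) (by norm_num)
    · exact le_rfl
  have hne : (univ : Finset A).Nonempty := ⟨a0, mem_univ _⟩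
  choose y hy using fun v => exists_max_image univ (c v) hne
  refine ⟨y, ?_⟩
  have h1 : PS t ω (agr s π univ x) = ∑ b, PS t ω (fun e e' =>
      (if π e (x (s e)) = b then (1 : ℝ) else 0) * (if π e' (x (s e')) = b then 1 else 0)) := by
    unfold PS
    conv_rhs => rw [sum_comm]
    refine sum_congr rfl fun e _ => ?_
    conv_rhs => rw [sum_comm]
    refine sum_congr rfl fun e' _ => ?_
    rw [← mul_sum]
    congr 1
    unfold agr
    simp only [mem_univ, and_self, true_and]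
    rw [sum_eq_single (π e (x (s e)))]
    · rw [if_pos rfl, one_mul]
      by_cases h : π e (x (s e)) = π e' (x (s e'))
      · rw [if_pos h, if_pos h.symm]
      · rw [if_neg h, if_neg fun h' => h h'.symm]
    · intro b _ hb
      rw [if_neg fun h => hb h.symm, zero_mul]
    · intro h; exact absurd (mem_univ _) h
  rw [h1]
  have h2 : ∀ b, PS t ω (fun e e' =>
      (if π e (x (s e)) = b then (1 : ℝ) else 0) * (if π e' (x (s e')) = b then 1 else 0)) =
      ∑ v, c v b ^ 2 / bd t ω v := fun b => PS_sq t ω fun e => if π e (x (s e)) = b then 1 else 0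
  rw [sum_congr rfl fun b _ => h2 b, sum_comm]
  have h3 : ∑ e, ω e * (if π e (x (s e)) = y (t e) then (1 : ℝ) else 0) = ∑ v, c v (y v) := by
    simp only [hc]
    rw [sum_comm]
    refine sum_congr rfl fun e _ => ?_
    rw [sum_ite_eq, if_pos (mem_univ _)]
  rw [h3]
  refine sum_le_sum fun v _ => ?_
  have h4 : ∑ b, c v b = bd t ω v := by
    simp only [hc]
    rw [sum_comm]
    unfold bd
    refine sum_congr rfl fun e _ => ?_
    split_ifs with h
    · rw [← mul_sum, sum_ite_eq, if_pos (mem_univ _), mul_one]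
    · rw [sum_const_zero]
  rcases (bd_nonneg t ω hω v).eq_or_lt with h0 | h0
  · have h5 : ∀ b, c v b = 0 := by
      intro b
      have h6 := (sum_eq_zero_iff_of_nonneg fun b _ => hc0 v b).1 (h4.trans h0.symm) b (mem_univ b)
      exact h6
    simp [h5]
  · have h6 : ∀ b, c v b ^ 2 / bd t ω v ≤ c v (y v) * (c v b / bd t ω v) := by
      intro b
      rw [sq, mul_div_assoc]
      exact mul_le_mul_of_nonneg_right ((hy v).2 b (mem_univ b)) (div_nonneg (hc0 v b) h0.le)
    calc ∑ b, c v b ^ 2 / bd t ω v ≤ ∑ b, c v (y v) * (c v b / bd t ω v) :=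
          sum_le_sum fun b _ => h6 b
      _ = c v (y v) * (bd t ω v / bd t ω v) := by rw [← mul_sum, ← sum_div, h4]
      _ = c v (y v) := by rw [div_self h0.ne', mul_one]

/-- rounding -/
theorem two_sides {Q : ℕ → (((V → A) → ℝ) →ₗ[ℝ] ℝ) → Prop} {r : ℕ} (hr : 1 ≤ r) (hQ : Hier r Q)
    (hT : ∀ k L, Q k L → Tri L) (s t : E → V) (π : E → Equiv.Perm A) (U0 : Finset V)
    (hs : ∀ e, s e ∈ U0) (n : ℕ) (hn : 0 < n) (hU0 : U0.card ≤ n)
    (κ q ε τ : ℝ) (hκ : 0 < κ)
    (hκ1 : κ < 1) (hq : 0 < q) (hq1 : q ≤ 1) (hε : 0 < ε) (hτ : 24576 * ε ≤ τ)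
    (hτ1 : τ ≤ 1 / 2) (k : ℕ)
    (hk : 2 ≤ k * ((1 / 32) ^ 2 / 64 * (rhoS κ τ q ^ 2 * (n : ℝ) ^ (-q))))
    (hrr : 512 ≤ r * (rhoS κ τ q ^ 2 * τ))
    (L : ((V → A) → ℝ) →ₗ[ℝ] ℝ) (hL : Q k L)
    (hval : (1 - ε) * (Fintype.card E : ℝ) ≤ ∑ e, L (sat (s e) (t e) (π e)))
    (hE : 0 < Fintype.card E) :
    ∃ x y : V → A, (n : ℝ) ^ (-(2 * κ)) / 8192 * (Fintype.card E : ℝ) ≤
      ((univ.filter fun e => π e (x (s e)) = y (t e)).card : ℝ) := by
  have hE0 : (0 : ℝ) < Fintype.card E := by exact_mod_cast hE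
  have hn0 : (0 : ℝ) < n := by exact_mod_cast hn
  set ω : E → ℝ := fun e => if 1 - L (sat (s e) (t e) (π e)) ≤ 2 * ε then 1 else 0 with hωd
  have hω : ∀ e, 0 ≤ ω e := fun e => by simp only [hωd]; split_ifs <;> norm_num
  have hsat1 := (hQ.fct _ _ hL).sat1
  have hD : (Fintype.card E : ℝ) / 2 ≤ ∑ e, ω e := by
    have h1 : ∑ e, (1 - L (sat (s e) (t e) (π e))) ≤ ε * Fintype.card E := by
      rw [sum_sub_distrib, sum_const, card_univ, nsmul_eq_mul, mul_one]
      linarith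
    have h2 : ∀ e, 2 * ε * (1 - ω e) ≤ 1 - L (sat (s e) (t e) (π e)) := by
      intro e
      simp only [hωd]
      split_ifs with h
      · have := hsat1 (s e) (t e) (π e)
        linarith
      · push Not at h
        linarith
    have h3 : ∑ e, 2 * ε * (1 - ω e) ≤ ε * Fintype.card E := (sum_le_sum fun e _ => h2 e).trans h1
    rw [← mul_sum, sum_sub_distrib, sum_const, card_univ, nsmul_eq_mul, mul_one] at h3
    have h4 : ε * (2 * (Fintype.card E - ∑ e, ω e)) ≤ ε * Fintype.card E := by linarith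
    have h5 := le_of_mul_le_mul_left h4 hε
    linarith
  have hD0 : 0 < ∑ e, ω e := by linarith
  obtain ⟨e0, -⟩ : (univ : Finset E).Nonempty := card_pos.1 (by rw [card_univ]; exact hE)
  have ha0 : ∃ a0 : A, True := by
    by_contra hcon
    push Not at hcon
    have h1 : ∑ a, pr L (s e0) a = 1 := ((hQ.fct _ _ hL).law (s e0) (s e0)).one
    have h2 : ∑ a, pr L (s e0) a = 0 := sum_eq_zero fun a _ => absurd (hcon a) (by simp)
    rw [h2] at h1
    exact zero_ne_one h1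
  obtain ⟨a0, -⟩ := ha0
  have hβ : 0 ≤ (n : ℝ) ^ (-(2 * κ)) / 1024 := by positivity
  obtain ⟨x, hx⟩ := greedy s t π ω hω ((n : ℝ) ^ (-(2 * κ)) / 1024) hβ (fun _ => a0)
    U0.card U0 le_rfl (fun U hU hbil => by
      obtain ⟨x, S, h1, h2, h3⟩ := part_roundK hr hQ hT s t π ω hω hD0 n hn κ q (2 * ε) τ hκ hκ1 hq
        hq1 (by linarith) (by linarith) hτ1 k hk hrr L hL
        (fun e he => by
          simp only [hωd] at he
          split_ifs at he with h
          · exact h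
          · exact absurd he (lt_irrefl _)) U ((card_le_card hU).trans hU0) hbil
      exact ⟨x, S, h1, h2, h3⟩)
  obtain ⟨y, hy⟩ := targets s t π ω hω x a0
  refine ⟨x, y, ?_⟩
  have h1 : ∑ u ∈ U0, ds s ω u = ∑ e, ω e := by
    unfold ds
    rw [sum_comm]
    refine sum_congr rfl fun e _ => ?_
    rw [sum_ite_eq, if_pos (hs e)]
  have h2 : PS t ω (agr s π U0 x) ≤ PS t ω (agr s π univ x) := by
    refine PS_mono t ω hω _ _ fun e e' _ => ?_
    unfold agr
    simp only [hs e, hs e', mem_univ, and_self, true_and]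
    exact le_rfl
  have h3 : ∑ e, ω e * (if π e (x (s e)) = y (t e) then (1 : ℝ) else 0) ≤
      ((univ.filter fun e => π e (x (s e)) = y (t e)).card : ℝ) := by
    rw [card_eq_sum_ones, Nat.cast_sum, sum_filter]
    push_cast
    refine sum_le_sum fun e _ => ?_
    have h4 : ω e ≤ 1 := by simp only [hωd]; split_ifs <;> norm_num
    split_ifs
    · linarith
    · linarith
  rw [h1] at hx
  have h5 : (n : ℝ) ^ (-(2 * κ)) / 1024 * ((Fintype.card E : ℝ) / 8) ≤
      (n : ℝ) ^ (-(2 * κ)) / 1024 * (∑ e, ω e - 3 / 4 * ∑ e, ω e) :=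
    mul_le_mul_of_nonneg_left (by linarith) hβ
  calc (n : ℝ) ^ (-(2 * κ)) / 8192 * (Fintype.card E : ℝ) =
        (n : ℝ) ^ (-(2 * κ)) / 1024 * ((Fintype.card E : ℝ) / 8) := by ring
    _ ≤ _ := h5
    _ ≤ _ := hx
    _ ≤ _ := h2
    _ ≤ _ := hy
    _ ≤ _ := h3

end

/-- the choice of the parameters -/
theorem params (n : ℕ) (q δ ε : ℝ) (hq : 0 < q) (hq1 : q ≤ 1) (hδn : 1 / (n : ℝ) ≤ δ)
    (hn : 0 < n)
    (hδ1 : δ ≤ 1 / 2 ^ 26) (hε0 : 0 < ε) (hε : ε ≤ 1 / 2 ^ 17) :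
    ∃ κ τ : ℝ, 0 < κ ∧ κ < 1 ∧ (n : ℝ) ^ (-(2 * κ)) / 8192 = δ ∧ 24576 * ε ≤ τ ∧ τ ≤ 1 / 2 ∧
      (rhoS κ τ q ^ 2)⁻¹ ≤ 2 ^ 5 * (n : ℝ) ^ (2 ^ 21 * (ε * (Real.log (1 / q) /
        Real.log (1 / δ)))) ∧
      τ⁻¹ ≤ 48 * (Real.log (1 / q) * Real.log n / Real.log (1 / δ)) + 12 := by
  have hn0 : (0 : ℝ) < n := by exact_mod_cast hn
  have hδ0 : 0 < δ := lt_of_lt_of_le (by positivity) hδn
  have hn1 : (2 : ℝ) ^ 26 ≤ n := by
    have h1 : 1 / (n : ℝ) ≤ 1 / 2 ^ 26 := hδn.trans hδ1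
    exact (one_div_le_one_div hn0 (by positivity)).1 h1
  have hlogn : 0 < Real.log n := Real.log_pos (by linarith [show (1 : ℝ) < 2 ^ 26 by norm_num])
  have hLq : 0 ≤ Real.log (1 / q) := Real.log_nonneg (by rw [le_div_iff₀ hq]; linarith)
  have hLd : Real.log (1 / δ) = -Real.log δ := by rw [one_div, Real.log_inv]
  have hlog8 : Real.log 8192 = 13 * Real.log 2 := by
    rw [show (8192 : ℝ) = 2 ^ 13 by norm_num, Real.log_pow]
    norm_num
  have hl2 := Real.log_two_gt_d9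
  have hLd0 : 26 * Real.log 2 ≤ Real.log (1 / δ) := by
    have h1 : Real.log ((2 : ℝ) ^ 26) ≤ Real.log (1 / δ) := by
      apply Real.log_le_log (by positivity)
      rw [le_div_iff₀ hδ0]
      have : δ * 2 ^ 26 ≤ 1 / 2 ^ 26 * 2 ^ 26 := mul_le_mul_of_nonneg_right hδ1 (by positivity)
      linarith
    rw [Real.log_pow] at h1
    exact_mod_cast h1
  have hLdn : Real.log (1 / δ) ≤ Real.log n := by
    apply Real.log_le_log (by positivity)
    rw [div_le_iff₀ hδ0]
    rw [div_le_iff₀ hn0] at hδn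
    linarith
  set Λ : ℝ := Real.log (1 / δ) - 13 * Real.log 2 with hΛ
  have hΛ1 : Real.log (1 / δ) / 2 ≤ Λ := by rw [hΛ]; linarith
  have hΛ0 : 0 < Λ := by linarith
  set κ : ℝ := Λ / (2 * Real.log n) with hκd
  have hκ : 0 < κ := by positivity
  have hκ1 : κ < 1 := by
    rw [hκd, div_lt_one (by positivity)]
    linarith
  have hκi : Real.log (1 / q) / κ ≤ 4 * (Real.log (1 / q) * Real.log n / Real.log (1 / δ)) := by
    rw [hκd, div_div_eq_mul_div, div_le_iff₀ hΛ0]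
    have hLdp : 0 < Real.log (1 / δ) := by linarith
    have h1 : Real.log (1 / q) * (2 * Real.log n) =
        4 * (Real.log (1 / q) * Real.log n / Real.log (1 / δ)) * (Real.log (1 / δ) / 2) := by
      field_simp
      ring
    rw [h1]
    exact mul_le_mul_of_nonneg_left hΛ1 (by positivity)
  have hX0 : 0 ≤ Real.log (1 / q) / κ := by positivity
  set X : ℝ := Real.log (1 / q) / κ + 1 with hX
  have hX1 : 1 ≤ X := by linarith
  set τ : ℝ := 24576 * ε + 1 / (12 * X) with hτd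
  have hτ1 : 1 / (12 * X) ≤ 1 / 12 := by
    apply one_div_le_one_div_of_le (by norm_num)
    linarith
  have hτ0 : 0 < 1 / (12 * X) := by positivity
  refine ⟨κ, τ, hκ, hκ1, ?_, by linarith, ?_, ?_, ?_⟩
  · rw [Real.rpow_def_of_pos hn0]
    have h1 : Real.log n * -(2 * κ) = Real.log (8192 * δ) := by
      rw [Real.log_mul (by norm_num) hδ0.ne', hlog8, hκd, hΛ, hLd]
      field_simp
      ring
    rw [h1, Real.exp_log (by positivity)]
    ring
  · have h1 : 24576 * ε ≤ 24576 * (1 / 2 ^ 17) := by linarith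
    norm_num at h1
    linarith
  · -- the loss factor
    have h1 : (rhoS κ τ q ^ 2)⁻¹ = Real.exp (12 * 24576 * ε * X + 1) := by
      unfold rhoS
      rw [← Real.exp_nat_mul, ← Real.exp_neg]
      congr 1
      rw [hτd, ← hX]
      push_cast
      field_simp
      ring
    rw [h1]
    have h2 : 12 * 24576 * ε * X + 1 ≤ 13 / 4 + 2 ^ 21 * (ε * (Real.log (1 / q) /
        Real.log (1 / δ))) * Real.log n := by
      obtain ⟨Z, hZ⟩ : ∃ Z : ℝ, Z = Real.log (1 / q) * Real.log n / Real.log (1 / δ) := ⟨_, rfl⟩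
      have hXZ : X ≤ 4 * Z + 1 := by rw [hX, hZ]; linarith
      have h3 : 12 * 24576 * ε * X ≤ 12 * 24576 * ε * (4 * Z + 1) :=
        mul_le_mul_of_nonneg_left hXZ (by positivity)
      have h4 : 0 ≤ ε * Z := by
        have : 0 < Real.log (1 / δ) := by linarith
        rw [hZ]
        positivity
      have h5 : 12 * 24576 * ε ≤ 9 / 4 := by
        have : 12 * 24576 * ε ≤ 12 * 24576 * (1 / 2 ^ 17) := by linarith
        refine this.trans ?_
        norm_num
      have h6 : 2 ^ 21 * (ε * (Real.log (1 / q) / Real.log (1 / δ))) * Real.log n =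
          2097152 * (ε * Z) := by
        rw [hZ]; ring
      rw [h6]
      linarith
    refine (Real.exp_le_exp.2 h2).trans ?_
    rw [Real.exp_add]
    have h3 : Real.exp (13 / 4) ≤ 2 ^ 5 := by
      rw [← Real.log_le_log_iff (Real.exp_pos _) (by positivity), Real.log_exp, Real.log_pow]
      push_cast
      linarith
    rw [Real.rpow_def_of_pos hn0, mul_comm (Real.log n)]
    exact mul_le_mul_of_nonneg_right h3 (Real.exp_pos _).le
  · have h1 : τ⁻¹ ≤ (1 / (12 * X))⁻¹ := by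
      apply inv_anti₀ hτ0
      rw [hτd]
      linarith [mul_pos (by norm_num : (0 : ℝ) < 24576) hε0]
    refine h1.trans ?_
    rw [one_div, inv_inv, hX]
    linarith

/-- the rounding theorem for the Sherali-Adams hierarchy, with small soundness -/
theorem core {U V E A : Type} [Fintype U] [Fintype V] [Fintype E] [Fintype A] [DecidableEq A]
    (s : E → U) (t : E → V) (π : E → Equiv.Perm A) (q δ ε : ℝ) (k : ℕ)
    (L : ((U ⊕ V → A) → ℝ) →ₗ[ℝ] ℝ) (hq : 0 < q) (hq1 : q ≤ 1)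
    (hδn : 1 / (Fintype.card U : ℝ) ≤ δ)
    (hδ1 : δ ≤ 1 / 2 ^ 26) (hε0 : 0 < ε) (hε : ε ≤ 1 / 2 ^ 17)
    (hk : 2 ^ 23 * (((Fintype.card U : ℝ) ^ q +
      Real.log (1 / q) * Real.log (Fintype.card U) / Real.log (1 / δ)) *
      (Fintype.card U : ℝ) ^ (2 ^ 21 * (ε * (Real.log (1 / q) / Real.log (1 / δ))))) ≤ k)
    (hL : SAl k L)
    (hval : (1 - ε) * (Fintype.card E : ℝ) ≤
      ∑ e, L (sat (Sum.inl (s e)) (Sum.inr (t e)) (π e))) :
    ∃ (x : U → A) (y : V → A), δ * (Fintype.card E : ℝ) ≤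
      ((univ.filter fun e => π e (x (s e)) = y (t e)).card : ℝ) := by
  classical
  rcases Nat.eq_zero_or_pos (Fintype.card E) with hE | hE
  · -- no edges
    have hA : ∃ z : U ⊕ V → A, True := by
      by_contra hcon
      push Not at hcon
      have h1 : L (fun _ => 1) = L 0 := by
        congr 1
        funext z
        exact absurd (hcon z) (by simp)
      rw [hL.one, map_zero] at h1
      exact one_ne_zero h1
    obtain ⟨z, -⟩ := hA
    refine ⟨fun u => z (Sum.inl u), fun v => z (Sum.inr v), ?_⟩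
    rw [hE]
    simp
  have hU : 0 < Fintype.card U := by
    obtain ⟨e0, -⟩ : (univ : Finset E).Nonempty := card_pos.1 (by rw [card_univ]; exact hE)
    exact Fintype.card_pos_iff.2 ⟨s e0⟩
  obtain ⟨n, hnd⟩ : ∃ n : ℕ, n = Fintype.card U := ⟨_, rfl⟩
  rw [← hnd] at hδn hk hU
  have hn0 : (0 : ℝ) < n := by exact_mod_cast hU
  obtain ⟨κ, τ, hκ, hκ1, hδκ, hτ, hτ1, hρ, hτi⟩ := params n q δ ε hq hq1 hδn hU hδ1 hε0 hε
  have hτ0 : 0 < τ := by linarith
  have hρ0 : 0 < rhoS κ τ q ^ 2 := by unfold rhoS; positivity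
  set X : ℝ := (n : ℝ) ^ (2 ^ 21 * (ε * (Real.log (1 / q) / Real.log (1 / δ)))) with hX
  set Y : ℝ := Real.log (1 / q) * Real.log n / Real.log (1 / δ) with hY
  have hδ0 : 0 < δ := lt_of_lt_of_le (by positivity) hδn
  have hn1 : (1 : ℝ) ≤ n := by exact_mod_cast hU
  have hLq : 0 ≤ Real.log (1 / q) := Real.log_nonneg (by rw [le_div_iff₀ hq]; linarith)
  have hLd : 0 ≤ Real.log (1 / δ) := by
    apply Real.log_nonneg
    rw [le_div_iff₀ hδ0]
    have : (1 : ℝ) / 2 ^ 26 ≤ 1 := by norm_num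
    linarith
  have hY0 : 0 ≤ Y := div_nonneg (mul_nonneg hLq (Real.log_nonneg hn1)) hLd
  have hX1 : 1 ≤ X := Real.one_le_rpow hn1 (by positivity)
  have hnq : 1 ≤ (n : ℝ) ^ q := Real.one_le_rpow hn1 hq.le
  -- the levels
  obtain ⟨k1, hk1⟩ : ∃ k1 : ℕ, k1 = ⌈2 ^ 22 * ((n : ℝ) ^ q * X)⌉₊ := ⟨_, rfl⟩
  obtain ⟨r, hr⟩ : ∃ r : ℕ, r = ⌈2 ^ 14 * ((48 * Y + 12) * X)⌉₊ := ⟨_, rfl⟩
  have hk1a : 2 ^ 22 * ((n : ℝ) ^ q * X) ≤ k1 := by rw [hk1]; exact Nat.le_ceil _
  have hk1b : (k1 : ℝ) < 2 ^ 22 * ((n : ℝ) ^ q * X) + 1 := by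
    rw [hk1]; exact Nat.ceil_lt_add_one (by positivity)
  have hra : 2 ^ 14 * ((48 * Y + 12) * X) ≤ r := by rw [hr]; exact Nat.le_ceil _
  have hrb : (r : ℝ) < 2 ^ 14 * ((48 * Y + 12) * X) + 1 := by
    rw [hr]; exact Nat.ceil_lt_add_one (by positivity)
  have hr1 : 1 ≤ r := by
    have h1 : (0 : ℝ) < r := lt_of_lt_of_le (by positivity) hra
    exact_mod_cast h1
  have hsum : k1 + (r + 2) ≤ k := by
    have h1 : ((k1 + (r + 2) : ℕ) : ℝ) ≤ k := by
      push_cast
      refine le_trans ?_ hk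
      have h2 : 1 ≤ (n : ℝ) ^ q * X := by nlinarith
      have h3 : X ≤ (n : ℝ) ^ q * X := le_mul_of_one_le_left (by linarith) hnq
      have h4 : 0 ≤ Y * X := by positivity
      nlinarith
    exact_mod_cast h1
  have hpn : 0 < (n : ℝ) ^ q := Real.rpow_pos_of_pos hn0 _
  have hcond1 : (2 : ℝ) ≤ k1 * ((1 / 32) ^ 2 / 64 * (rhoS κ τ q ^ 2 * (n : ℝ) ^ (-q))) := by
    rw [Real.rpow_neg hn0.le]
    have h1 : 2 ^ 22 * ((n : ℝ) ^ q * X) * ((1 / 32) ^ 2 / 64 * (rhoS κ τ q ^ 2 *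
        ((n : ℝ) ^ q)⁻¹)) ≤ k1 * ((1 / 32) ^ 2 / 64 * (rhoS κ τ q ^ 2 * ((n : ℝ) ^ q)⁻¹)) :=
      mul_le_mul_of_nonneg_right hk1a (by positivity)
    refine le_trans ?_ h1
    have h2 : 1 ≤ 2 ^ 5 * X * rhoS κ τ q ^ 2 := by
      have h3 := mul_le_mul_of_nonneg_right hρ hρ0.le
      rwa [inv_mul_cancel₀ hρ0.ne'] at h3
    have h4 : 2 ^ 22 * ((n : ℝ) ^ q * X) * ((1 / 32) ^ 2 / 64 * (rhoS κ τ q ^ 2 *
        ((n : ℝ) ^ q)⁻¹)) = 2 * (2 ^ 5 * X * rhoS κ τ q ^ 2) := by
      field_simp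
      norm_num
    rw [h4]
    linarith
  have hcond2 : (512 : ℝ) ≤ r * (rhoS κ τ q ^ 2 * τ) := by
    have h1 : 2 ^ 14 * ((48 * Y + 12) * X) * (rhoS κ τ q ^ 2 * τ) ≤ r * (rhoS κ τ q ^ 2 * τ) :=
      mul_le_mul_of_nonneg_right hra (by positivity)
    refine le_trans ?_ h1
    have h2 : 1 ≤ 2 ^ 5 * X * rhoS κ τ q ^ 2 := by
      have h3 := mul_le_mul_of_nonneg_right hρ hρ0.le
      rwa [inv_mul_cancel₀ hρ0.ne'] at h3
    have h3 : 1 ≤ (48 * Y + 12) * τ := by
      have h4 := mul_le_mul_of_nonneg_right hτi hτ0.le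
      rwa [inv_mul_cancel₀ hτ0.ne'] at h4
    have h5 : 1 ≤ (2 ^ 5 * X * rhoS κ τ q ^ 2) * ((48 * Y + 12) * τ) := by nlinarith
    calc (512 : ℝ) ≤ 512 * ((2 ^ 5 * X * rhoS κ τ q ^ 2) * ((48 * Y + 12) * τ)) := by linarith
      _ = 2 ^ 14 * ((48 * Y + 12) * X) * (rhoS κ τ q ^ 2 * τ) := by ring
  have hL' : SAl (k1 + (r + 2)) L := SA.Sx.mono hsum hL
  obtain ⟨x, y, hxy⟩ := two_sides (V := U ⊕ V) hr1 (SA.hier_sa (U ⊕ V) A r)
    (fun k L hL => tri_sa (by omega) hL) (fun e => Sum.inl (s e)) (fun e => Sum.inr (t e)) π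
    (univ.image Sum.inl) (fun e => mem_image_of_mem _ (mem_univ _)) n hU
    (by rw [hnd]; exact card_image_le.trans (by rw [card_univ])) κ q ε τ hκ hκ1 hq hq1 hε0 hτ hτ1
    k1 hcond1 hcond2 L hL' hval hE
  rw [hδκ] at hxy
  exact ⟨fun u => x (Sum.inl u), fun v => y (Sum.inr v), hxy⟩

end Pool.Agent.T6.H63.SS
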